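import Mathlib

/-!
# The Thue–Morse partition does not minimise the next power-sum defect

Let `N_n = {0, …, 2 ^ n - 1}`. A partition `{S, T}` of `N_n` has the property `P_n` if `S` and `T` have
the same sums of `i`-th powers for all `i < n`; its defect is the difference of the sums of the
`n`-th powers. The question is whether the Thue–Morse partition is the unique partition with the
property `P_n` which minimises the absolute value of the defect. The answer is no: for every `n ≥ 7`
there is a partition with the property `P_n` and the defect `± 8509 / 16384` times the defect of the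
Thue–Morse partition.

The example for `n = 7` was found by a computer search among the partitions such that `x ↦ 127 - x`
exchanges `S` and `T`: then the conditions for the centred even powers hold, and signs for the `64`
numbers `2 x - 127 > 0` with three vanishing odd moments are found by a meet in the middle. For larger
`n` replace `(S, T)` by `(S ∪ (T + 2 ^ n), T ∪ (S + 2 ^ n))`: the new defect is
`- (n + 1) 2 ^ n` times the old one, and the Thue–Morse partitions are related in the same way.
-/

set_option autoImplicit false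

namespace Pool.Agent.L7h14.Old.FailsFromSeven

open Finset

/-- `{S, T}` is a partition of `{0, 1, …, 2 ^ n - 1}`. -/
def IsPartition (n : ℕ) (S T : Finset ℕ) : Prop := Disjoint S T ∧ S ∪ T = range (2 ^ n)

/-- The property `P_n`: equal power sums for the exponents `0 ≤ i < n` (with `0 ^ 0 = 1`). -/
def HasP (n : ℕ) (S T : Finset ℕ) : Prop := ∀ i < n, ∑ s ∈ S, s ^ i = ∑ t ∈ T, t ^ i

/-- The defect `D(S, T)`. -/
def defect (n : ℕ) (S T : Finset ℕ) : ℤ := ∑ s ∈ S, (s : ℤ) ^ n - ∑ t ∈ T, (t : ℤ) ^ n

/-- The Thue–Morse sequence: the parity of the number of ones in the binary expansion. -/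
def thueMorse (k : ℕ) : ℕ := (Nat.digits 2 k).count 1 % 2

/-- The first part of the Thue–Morse partition of `{0, 1, …, 2 ^ n - 1}`. -/
def sTM (n : ℕ) : Finset ℕ := (range (2 ^ n)).filter (fun k => thueMorse k = 0)

/-- The second part of the Thue–Morse partition of `{0, 1, …, 2 ^ n - 1}`. -/
def tTM (n : ℕ) : Finset ℕ := (range (2 ^ n)).filter (fun k => thueMorse k = 1)

/-! ### Doubling -/

lemma hasP_iff (n : ℕ) (S T : Finset ℕ) : HasP n S T ↔ ∀ i < n, defect i S T = 0 := by
  unfold HasP defect
  refine forall₂_congr fun i _ => ?_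
  rw [sub_eq_zero]
  constructor
  · intro h
    have := congrArg (fun x : ℕ => (x : ℤ)) h
    push_cast at this
    exact this
  · intro h
    exact_mod_cast h

/-- the translate of a set -/
def tr (N : ℕ) (S : Finset ℕ) : Finset ℕ := S.map (addRightEmbedding N)

/-- the first part of the doubled partition -/
def dbl (N : ℕ) (S T : Finset ℕ) : Finset ℕ := S ∪ tr N T

lemma sub_left {n : ℕ} {S T : Finset ℕ} (h : IsPartition n S T) : S ⊆ range (2 ^ n) :=
  h.2 ▸ subset_union_left

lemma sub_right {n : ℕ} {S T : Finset ℕ} (h : IsPartition n S T) : T ⊆ range (2 ^ n) :=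
  h.2 ▸ subset_union_right

lemma disj_tr {N : ℕ} {S T : Finset ℕ} (hS : S ⊆ range N) : Disjoint S (tr N T) := by
  rw [Finset.disjoint_left]
  intro a ha hb
  have h1 := mem_range.1 (hS ha)
  unfold tr at hb
  rw [mem_map] at hb
  obtain ⟨b, _, hb2⟩ := hb
  simp only [addRightEmbedding_apply] at hb2
  omega

lemma isPartition_symm {n : ℕ} {S T : Finset ℕ} (h : IsPartition n S T) : IsPartition n T S :=
  ⟨h.1.symm, by rw [union_comm]; exact h.2⟩

lemma isPartition_dbl {n : ℕ} {S T : Finset ℕ} (h : IsPartition n S T) :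
    IsPartition (n + 1) (dbl (2 ^ n) S T) (dbl (2 ^ n) T S) := by
  refine ⟨?_, ?_⟩
  · rw [Finset.disjoint_left]
    intro a ha hb
    unfold dbl at ha hb
    rw [mem_union] at ha hb
    rcases ha with ha | ha
    · rcases hb with hb | hb
      · exact (Finset.disjoint_left.1 h.1) ha hb
      · exact (Finset.disjoint_left.1 (disj_tr (sub_left h))) ha hb
    · rcases hb with hb | hb
      · exact (Finset.disjoint_left.1 (disj_tr (sub_right h))) hb ha
      · unfold tr at ha hb
        rw [mem_map] at ha hb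
        obtain ⟨x, hx, hx2⟩ := ha
        obtain ⟨y, hy, hy2⟩ := hb
        simp only [addRightEmbedding_apply] at hx2 hy2
        have : x = y := by omega
        subst this
        exact (Finset.disjoint_left.1 h.1) hy hx
  · ext a
    have h2 := h.2
    have key : ∀ b, b ∈ S ∨ b ∈ T ↔ b < 2 ^ n := by
      intro b
      rw [← mem_union, h2, mem_range]
    unfold dbl tr
    simp only [mem_union, mem_map, addRightEmbedding_apply, mem_range, pow_succ]
    constructor
    · rintro ((h | ⟨b, hb, rfl⟩) | (h | ⟨b, hb, rfl⟩))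
      · have := (key a).1 (Or.inl h); omega
      · have := (key b).1 (Or.inr hb); omega
      · have := (key a).1 (Or.inr h); omega
      · have := (key b).1 (Or.inl hb); omega
    · intro ha
      by_cases hlt : a < 2 ^ n
      · rcases (key a).2 hlt with h | h
        · exact Or.inl (Or.inl h)
        · exact Or.inr (Or.inl h)
      · have hb : a - 2 ^ n < 2 ^ n := by omega
        rcases (key _).2 hb with h | h
        · exact Or.inr (Or.inr ⟨_, h, by omega⟩)
        · exact Or.inl (Or.inr ⟨_, h, by omega⟩)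

lemma sum_tr (N : ℕ) (T : Finset ℕ) (i : ℕ) :
    ∑ t ∈ tr N T, (t : ℤ) ^ i
      = ∑ j ∈ range (i + 1), ((N : ℤ) ^ (i - j) * (i.choose j : ℤ)) * ∑ t ∈ T, (t : ℤ) ^ j := by
  unfold tr
  rw [sum_map]
  simp only [addRightEmbedding_apply, Nat.cast_add]
  simp_rw [add_pow, mul_sum]
  rw [sum_comm]
  refine sum_congr rfl fun j _ => sum_congr rfl fun t _ => by ring

lemma defect_dbl {n : ℕ} {S T : Finset ℕ} (h : IsPartition n S T) (i : ℕ) :
    defect i (dbl (2 ^ n) S T) (dbl (2 ^ n) T S)
      = - ∑ j ∈ range i, (((2 ^ n : ℕ) : ℤ) ^ (i - j) * (i.choose j : ℤ)) * defect j S T := by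
  unfold defect dbl
  rw [sum_union (disj_tr (sub_left h)), sum_union (disj_tr (sub_right h)), sum_tr, sum_tr,
    sum_range_succ, sum_range_succ]
  simp only [mul_sub, sum_sub_distrib, Nat.sub_self, pow_zero, Nat.choose_self, Nat.cast_one,
    one_mul]
  ring

lemma dbl_zero {n : ℕ} {S T : Finset ℕ} (h : IsPartition n S T) (hz : ∀ i < n, defect i S T = 0) :
    ∀ i < n + 1, defect i (dbl (2 ^ n) S T) (dbl (2 ^ n) T S) = 0 := by
  intro i hi
  rw [defect_dbl h, neg_eq_zero]
  refine sum_eq_zero fun j hj => ?_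
  rw [hz j (by have := mem_range.1 hj; omega), mul_zero]

lemma dbl_defect {n : ℕ} {S T : Finset ℕ} (h : IsPartition n S T)
    (hz : ∀ i < n, defect i S T = 0) :
    defect (n + 1) (dbl (2 ^ n) S T) (dbl (2 ^ n) T S)
      = - (((n + 1 : ℕ) : ℤ) * 2 ^ n * defect n S T) := by
  rw [defect_dbl h, sum_range_succ, sum_eq_zero, zero_add]
  · have : n + 1 - n = 1 := by omega
    rw [this, Nat.choose_succ_self_right]
    push_cast
    ring
  · intro j hj
    rw [hz j (mem_range.1 hj), mul_zero]

/-! ### The Thue–Morse partition -/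

lemma tm_le (k : ℕ) : thueMorse k = 0 ∨ thueMorse k = 1 := by
  unfold thueMorse; omega

lemma tm_even (m : ℕ) : thueMorse (2 * m) = thueMorse m := by
  unfold thueMorse
  rcases Nat.eq_zero_or_pos m with rfl | hm
  · rfl
  · have : Nat.digits 2 (2 * m) = 0 :: Nat.digits 2 m := by
      have := Nat.digits_add 2 (by norm_num) 0 m (by norm_num) (Or.inr hm.ne')
      simpa using this
    rw [this]
    simp

lemma tm_odd (m : ℕ) : thueMorse (2 * m + 1) = (thueMorse m + 1) % 2 := by
  unfold thueMorse
  have : Nat.digits 2 (2 * m + 1) = 1 :: Nat.digits 2 m := by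
    have := Nat.digits_add 2 (by norm_num) 1 m (by norm_num) (Or.inl (by norm_num))
    simpa [add_comm] using this
  rw [this]
  simp

lemma tm_add (n : ℕ) : ∀ k < 2 ^ n, thueMorse (k + 2 ^ n) = (thueMorse k + 1) % 2 := by
  induction n with
  | zero =>
    intro k hk
    have : k = 0 := by simpa using hk
    subst this
    simp [thueMorse]
  | succ n ih =>
    intro k hk
    rcases Nat.even_or_odd' k with ⟨m, rfl | rfl⟩
    · have hm : m < 2 ^ n := by rw [pow_succ] at hk; omega
      have : 2 * m + 2 ^ (n + 1) = 2 * (m + 2 ^ n) := by rw [pow_succ]; ring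
      rw [this, tm_even, tm_even, ih m hm]
    · have hm : m < 2 ^ n := by rw [pow_succ] at hk; omega
      have : 2 * m + 1 + 2 ^ (n + 1) = 2 * (m + 2 ^ n) + 1 := by rw [pow_succ]; ring
      rw [this, tm_odd, tm_odd, ih m hm]

lemma isPartition_tm (n : ℕ) : IsPartition n (sTM n) (tTM n) := by
  refine ⟨?_, ?_⟩
  · rw [Finset.disjoint_left]
    intro a ha hb
    have h1 := (mem_filter.1 ha).2
    have h2 := (mem_filter.1 hb).2
    omega
  · ext a
    unfold sTM tTM
    simp only [mem_union, mem_filter]
    have := tm_le a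
    tauto

lemma sTM_succ (n : ℕ) : sTM (n + 1) = dbl (2 ^ n) (sTM n) (tTM n) := by
  ext a
  unfold sTM dbl tr tTM
  simp only [mem_union, mem_filter, mem_map, addRightEmbedding_apply, mem_range, pow_succ]
  constructor
  · rintro ⟨h1, h2⟩
    by_cases hlt : a < 2 ^ n
    · exact Or.inl ⟨hlt, h2⟩
    · refine Or.inr ⟨a - 2 ^ n, ⟨by omega, ?_⟩, by omega⟩
      have h3 := tm_add n (a - 2 ^ n) (by omega)
      have h4 : a - 2 ^ n + 2 ^ n = a := by omega
      rw [h4, h2] at h3
      have := tm_le (a - 2 ^ n)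
      omega
  · rintro (⟨h1, h2⟩ | ⟨b, ⟨h1, h2⟩, rfl⟩)
    · exact ⟨by omega, h2⟩
    · refine ⟨by omega, ?_⟩
      rw [tm_add n b h1, h2]

lemma tTM_succ (n : ℕ) : tTM (n + 1) = dbl (2 ^ n) (tTM n) (sTM n) := by
  ext a
  unfold sTM dbl tr tTM
  simp only [mem_union, mem_filter, mem_map, addRightEmbedding_apply, mem_range, pow_succ]
  constructor
  · rintro ⟨h1, h2⟩
    by_cases hlt : a < 2 ^ n
    · exact Or.inl ⟨hlt, h2⟩
    · refine Or.inr ⟨a - 2 ^ n, ⟨by omega, ?_⟩, by omega⟩
      have h3 := tm_add n (a - 2 ^ n) (by omega)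
      have h4 : a - 2 ^ n + 2 ^ n = a := by omega
      rw [h4, h2] at h3
      have := tm_le (a - 2 ^ n)
      omega
  · rintro (⟨h1, h2⟩ | ⟨b, ⟨h1, h2⟩, rfl⟩)
    · exact ⟨by omega, h2⟩
    · refine ⟨by omega, ?_⟩
      rw [tm_add n b h1, h2]

lemma tm_all (n : ℕ) : (∀ i < n, defect i (sTM n) (tTM n) = 0) ∧ defect n (sTM n) (tTM n) ≠ 0 := by
  induction n with
  | zero =>
    refine ⟨fun i hi => absurd hi (by omega), ?_⟩
    decide +kernel
  | succ n ih =>
    rw [sTM_succ, tTM_succ]
    refine ⟨dbl_zero (isPartition_tm n) ih.1, ?_⟩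
    rw [dbl_defect (isPartition_tm n) ih.1]
    refine neg_ne_zero.2 (mul_ne_zero (mul_ne_zero ?_ (by positivity)) ih.2)
    exact_mod_cast Nat.succ_ne_zero n

/-! ### The example for `n = 7` -/

/-- The numbers of `S` are the positions of the ones in the binary expansion of this number. -/
def mask : ℕ := 0x9695a9a3c94db25965b24d6c3a6a5696

/-- a part of `{0, …, 127}` -/
def sEx : Finset ℕ := (range (2 ^ 7)).filter (fun k => mask.testBit k = true)

/-- its complement -/
def tEx : Finset ℕ := (range (2 ^ 7)).filter (fun k => mask.testBit k = false)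

lemma isPartition_ex : IsPartition 7 sEx tEx := by
  refine ⟨?_, ?_⟩
  · rw [Finset.disjoint_left]
    intro a ha hb
    have h1 := (mem_filter.1 ha).2
    have h2 := (mem_filter.1 hb).2
    rw [h1] at h2
    exact absurd h2 (by decide)
  · ext a
    unfold sEx tEx
    simp only [mem_union, mem_filter]
    cases mask.testBit a <;> simp

lemma ex_zero : ∀ i < 7, defect i sEx tEx = 0 := by
  decide +kernel

lemma ex_val : 16384 * |defect 7 sEx tEx| = 8509 * |defect 7 (sTM 7) (tTM 7)| := by
  decide +kernel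

lemma all_n (n : ℕ) (hn : 7 ≤ n) : ∃ S T, IsPartition n S T ∧ (∀ i < n, defect i S T = 0) ∧
    16384 * |defect n S T| = 8509 * |defect n (sTM n) (tTM n)| := by
  induction n, hn using Nat.le_induction with
  | base => exact ⟨sEx, tEx, isPartition_ex, ex_zero, ex_val⟩
  | succ n hn ih =>
    obtain ⟨S, T, h1, h2, h3⟩ := ih
    refine ⟨dbl (2 ^ n) S T, dbl (2 ^ n) T S, isPartition_dbl h1, dbl_zero h1 h2, ?_⟩
    rw [dbl_defect h1 h2, sTM_succ, tTM_succ, dbl_defect (isPartition_tm n) (tm_all n).1,
      abs_neg, abs_neg, abs_mul, abs_mul (((n + 1 : ℕ) : ℤ) * 2 ^ n)]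
    linear_combination |((n + 1 : ℕ) : ℤ) * 2 ^ n| * h3

/-- **The Thue–Morse partition does not minimise the defect for any `n ≥ 7`.** For every `n ≥ 7`
there is a partition `{S, T}` of `{0, …, 2 ^ n - 1}` with the property `P_n` whose defect has absolute
value `8509 / 16384 = 0.519…` times that of the Thue–Morse partition, which is not zero. So the
answer to the question is negative. -/
theorem result :
    (∀ n, 7 ≤ n → ∃ S T : Finset ℕ, IsPartition n S T ∧ HasP n S T ∧
      16384 * |defect n S T| = 8509 * |defect n (sTM n) (tTM n)| ∧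
      |defect n S T| < |defect n (sTM n) (tTM n)|) ∧
    ¬ ∀ n, 1 ≤ n → ∀ S T : Finset ℕ, IsPartition n S T → HasP n S T →
      |defect n (sTM n) (tTM n)| ≤ |defect n S T| ∧
      (|defect n S T| = |defect n (sTM n) (tTM n)| →
        (S = sTM n ∧ T = tTM n) ∨ (S = tTM n ∧ T = sTM n)) := by
  have key : ∀ n, 7 ≤ n → ∃ S T : Finset ℕ, IsPartition n S T ∧ HasP n S T ∧
      16384 * |defect n S T| = 8509 * |defect n (sTM n) (tTM n)| ∧
      |defect n S T| < |defect n (sTM n) (tTM n)| := by
    intro n hn
    obtain ⟨S, T, h1, h2, h3⟩ := all_n n hn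
    refine ⟨S, T, h1, (hasP_iff n S T).2 h2, h3, ?_⟩
    have h4 : 0 < |defect n (sTM n) (tTM n)| := abs_pos.2 (tm_all n).2
    omega
  refine ⟨key, fun H => ?_⟩
  obtain ⟨S, T, h1, h2, -, h4⟩ := key 7 le_rfl
  exact absurd ((H 7 (by norm_num) S T h1 h2).1) (not_le.2 h4)

end Pool.Agent.L7h14.Old.FailsFromSeven
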